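import Pool.Agent.N483.KM.Stm3
import Pool.Agent.R755.KF.Fin
import Pool.Agent.R476.OR.Rl

/-!
# Project KM (helper483), task ORR (helper531)

Concentration for intersections of generalised Orlicz balls, real valued functions.
-/

set_option autoImplicit false

namespace Pool.Agent.N531.KM

open MeasureTheory Set Filter Topology
open scoped ENNReal InnerProductSpace
open Pool.Agent.N483.KM
open Pool.Agent.R754.KG (E un sl Rv min_const)
open Pool.Agent.R755.KF (CB liftR)
open Pool.Agent.Y506.PV (CcW ind)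
open Pool.Agent.R476.OR (Orl cc_orl gtw two m4r apz limc box orl_real)

theorem int_prod {N d : ℕ} {K : Set (E N × E d)} (h : CB K) : (interior K).Nonempty := by
  by_contra hne
  rw [not_nonempty_iff_eq_empty] at hne
  have hi : (volume : Measure (E N × E d)).IsAddHaarMeasure :=
    inferInstanceAs ((volume : Measure (E N)).prod (volume : Measure (E d))).IsAddHaarMeasure
  have h1 := h.conv.addHaar_frontier (volume : Measure (E N × E d))
  have h2 : K ⊆ frontier K := by
    intro x hx
    rw [frontier, hne, sdiff_empty]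
    exact subset_closure hx
  exact h.pos.ne' (measure_mono_null h2 h1)

theorem int_fst {N d : ℕ} {K : Set (E N × E d)} (h : CB K) :
    (interior (Prod.fst '' K)).Nonempty := by
  obtain ⟨x, hx⟩ := int_prod h
  have h2 : IsOpen (Prod.fst '' interior K) := isOpenMap_fst _ isOpen_interior
  exact ⟨x.1, interior_maximal (image_mono interior_subset) h2 ⟨x, hx, rfl⟩⟩

theorem int_e {N d n : ℕ} {K : Set (E N × E d)} (h : CB K) (e : (E N × E d) ≃ₗ[ℝ] E n) :
    (interior (e '' K)).Nonempty := by
  obtain ⟨x, hx⟩ := int_prod h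
  let e' : (E N × E d) ≃L[ℝ] E n := e.toContinuousLinearEquiv
  have h2 : IsOpen (e' '' interior K) := e'.toHomeomorph.isOpenMap _ isOpen_interior
  exact ⟨e x, interior_maximal (image_mono interior_subset) h2 ⟨x, hx, rfl⟩⟩

theorem t_ORR (h1 : S_OLF) (h2 : S_SECC) : S_ORR := by
  intro r δ hδ
  obtain ⟨κ, hκ, H⟩ := min_const (P := fun m κ => ∀ (n : ℕ) (e : (E n × E m) ≃ₗ[ℝ] E (n + m))
      (L : Set (E n × E m)) (ts : E m), 1 ≤ n → CB L → (∀ t, Rv L t ≤ Rv L ts) →
      Orl (Prod.fst '' L) → CcW κ δ (ind (sl L ts)))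
    (fun m => by
      obtain ⟨δ', hδ', H2⟩ := h2 m 0 le_rfl
      obtain ⟨δ0, hδ0, H3⟩ := liftR m δ' hδ'
      obtain ⟨κ0, hκ0, H4⟩ := cc_orl (gtw two m4r) (apz limc) box δ0 hδ0
      obtain ⟨κ1, hκ1, H5⟩ := H3 κ0 hκ0
      obtain ⟨κ2, hκ2, H6⟩ := H2 κ1 δ hκ1 hδ
      refine ⟨κ2, hκ2, fun n e L ts hn hL hmax hO => ?_⟩
      have hpos : 0 < Rv L ts := by
        obtain ⟨S, hS, -, t', ht'⟩ := Pool.Agent.R755.KF.Maux.sup_ex hL (ρ := 1 / 2) (by norm_num)
        have := hmax t'
        linarith
      have hcen : Cen 0 L ts := by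
        intro t _ x _ _
        rw [zero_mul, Real.exp_zero, one_mul]
        exact hmax _
      have hA : Function.Surjective
          ((LinearMap.fst ℝ (E n) (E m)) ∘ₗ (e.symm : E (n + m) →ₗ[ℝ] (E n × E m))) := by
        intro x
        refine ⟨e (x, 0), ?_⟩
        simp
      have himg : ((LinearMap.fst ℝ (E n) (E m)) ∘ₗ (e.symm : E (n + m) →ₗ[ℝ] (E n × E m))) ''
          (e '' L) = Prod.fst '' L := by
        rw [image_image]
        refine image_congr fun z _ => ?_
        simp
      have hcp : IsCompact (e '' L) := hL.comp.image e.toContinuousLinearEquiv.continuous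
      have hcv : Convex ℝ (e '' L) := hL.conv.linear_image e.toLinearMap
      refine H6 n (n + m) e L ts hL hpos hcen (H5 n (e '' L) _ hA hcp hcv (int_e hL e) ?_)
      rw [himg]
      exact H4 n _ hn hO)
    (fun m κ κ' hκκ hP n e L ts hn hL hmax hO => (hP n e L ts hn hL hmax hO).mono hκκ) r
  refine ⟨κ, hκ, fun n V e hn hV hV0 hb hx => ?_⟩
  obtain ⟨m, L, ts, W, F, hm, hL, hmax, hsl, hW, hfst⟩ := h1 r n V e hn hV hV0 hb hx
  have hfe : Module.finrank ℝ (E n × E m) = Module.finrank ℝ (E (n + m)) := by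
    rw [Module.finrank_prod, finrank_euclideanSpace_fin, finrank_euclideanSpace_fin,
      finrank_euclideanSpace_fin]
  have hbd : Bornology.IsBounded (Prod.fst '' L) := (hL.comp.image continuous_fst).isBounded
  have hint := int_fst hL
  rw [← hsl]
  refine H m hm n (LinearEquiv.ofFinrankEq _ _ hfe) L ts hn hL hmax ⟨hbd, hint, ?_⟩
  rw [hfst] at hbd hint
  obtain ⟨W', F', hW', hK⟩ := orl_real W F hW hbd hint
  exact ⟨W', F', hW', by rw [hfst, hK]; rfl⟩

end Pool.Agent.N531.KM
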